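import Mathlib

/-!
Combinatorial lemmas on families of countable sets.
-/

open Set

namespace Pool.Agent.MP_7d36bd_gt.H41

lemma countable_finsets {A : Type*} {C : Set A} (hC : C.Countable) :
    {H : Finset A | (H : Set A) ⊆ C}.Countable := by
  have h := Set.countable_ofPred_finite_subset hC
  refine (h.preimage_of_injOn (f := fun H : Finset A => (H : Set A))
    (fun _ _ _ _ h => Finset.coe_injective h)).mono ?_
  intro H hH
  exact ⟨H.finite_toSet, hH⟩

/-- closing-off argument: hereditary separability -/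
lemma exists_countable_dense {ι A : Type*} (T : ι → Set A) (hT : ∀ i, (T i).Countable)
    (J : Set ι) :
    ∃ J0 ⊆ J, J0.Countable ∧ ∀ i ∈ J, ∀ H : Finset A, Disjoint (H : Set A) (T i) →
      ∃ k ∈ J0, Disjoint (H : Set A) (T k) := by
  classical
  rcases J.eq_empty_or_nonempty with rfl | ⟨i0, hi0⟩
  · exact ⟨∅, subset_rfl, countable_empty, by simp⟩
  have hpick : ∀ H : Finset A, ∃ k ∈ J, (∃ i ∈ J, Disjoint (H : Set A) (T i)) →
      Disjoint (H : Set A) (T k) := by
    intro H
    by_cases h : ∃ i ∈ J, Disjoint (H : Set A) (T i)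
    · obtain ⟨i, hi, hd⟩ := h
      exact ⟨i, hi, fun _ => hd⟩
    · exact ⟨i0, hi0, fun h' => absurd h' h⟩
  choose pick hpJ hpick using hpick
  let C : ℕ → Set A := fun n => Nat.rec ∅
    (fun _ c => c ∪ ⋃ H ∈ {H : Finset A | (H : Set A) ⊆ c}, T (pick H)) n
  have hCs : ∀ n, C (n + 1) = C n ∪ ⋃ H ∈ {H : Finset A | (H : Set A) ⊆ C n}, T (pick H) :=
    fun n => rfl
  have hCc : ∀ n, (C n).Countable := by
    intro n
    induction n with
    | zero => exact countable_empty
    | succ n ih =>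
      rw [hCs]
      exact ih.union ((countable_finsets ih).biUnion fun H _ => hT _)
  have hmono : Monotone C := monotone_nat_of_le_succ fun n => by
    rw [hCs]; exact subset_union_left
  refine ⟨pick '' {H : Finset A | (H : Set A) ⊆ ⋃ n, C n}, ?_,
    (countable_finsets (countable_iUnion hCc)).image _, fun i hi H hH => ?_⟩
  · rintro _ ⟨H, -, rfl⟩; exact hpJ H
  set H' := H.filter (fun a => a ∈ ⋃ n, C n) with hH'
  have hsub : (H' : Set A) ⊆ ⋃ n, C n := by
    intro a ha
    exact (Finset.mem_filter.mp ha).2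
  obtain ⟨n, hn⟩ : ∃ n, (H' : Set A) ⊆ C n := by
    have : ∀ a ∈ H', ∃ n, a ∈ C n := fun a ha => mem_iUnion.mp (hsub ha)
    choose! f hf using this
    exact ⟨H'.sup f, fun a ha => hmono (Finset.le_sup ha) (hf a ha)⟩
  have hd : Disjoint (H' : Set A) (T (pick H')) :=
    hpick H' ⟨i, hi, hH.mono_left (by rw [hH']; exact_mod_cast Finset.filter_subset _ _)⟩
  refine ⟨pick H', mem_image_of_mem _ hsub, Set.disjoint_left.mpr fun a ha ha' => ?_⟩
  have h1 : a ∈ C (n + 1) := by
    rw [hCs]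
    exact Or.inr (mem_biUnion (show H' ∈ {H : Finset A | (H : Set A) ⊆ C n} from hn) ha')
  exact Set.disjoint_left.mp hd
    (show a ∈ (H' : Set A) from Finset.mem_filter.mpr ⟨ha, mem_iUnion.mpr ⟨n + 1, h1⟩⟩) ha'

/-- an uncountable family has a countable subfamily that is not a union of `n` discrete sets -/
lemma levels {ι A : Type*} (T : ι → Set A) (hT : ∀ i, (T i).Countable) (p : ι → A)
    (hp : ∀ i, p i ∈ T i) (hp' : ∀ i k, p i ∈ T k → i = k) (J : Set ι) (hJ : ¬ J.Countable)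
    (n : ℕ) :
    ∃ J0 ⊆ J, J0.Countable ∧ ∀ c : ι → Fin n, ¬ ∀ i ∈ J0, ∃ H : Finset A,
      Disjoint (H : Set A) (T i) ∧
        ∀ k ∈ J0, Disjoint (H : Set A) (T k) → c k = c i → k = i := by
  classical
  choose d hd1 hd2 hd3 using exists_countable_dense T hT
  let R : ℕ → Set ι := fun k => Nat.rec J (fun _ r => r \ d r) k
  have hRs : ∀ k, R (k + 1) = R k \ d (R k) := fun k => rfl
  have hRJ : ∀ k, R k ⊆ J := by
    intro k
    induction k with
    | zero => exact subset_rfl
    | succ k ih => rw [hRs]; exact sdiff_subset.trans ih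
  have hRu : ∀ k, ¬ (R k).Countable := by
    intro k
    induction k with
    | zero => exact hJ
    | succ k ih =>
      intro h
      rw [hRs] at h
      exact ih ((h.union (hd2 (R k))).mono (fun x hx => by
        by_cases hx' : x ∈ d (R k)
        · exact Or.inr hx'
        · exact Or.inl ⟨hx, hx'⟩))
  refine ⟨⋃ k, d (R k), iUnion_subset fun k => (hd1 _).trans (hRJ k),
    countable_iUnion fun k => hd2 _, fun c hc => ?_⟩
  have key : ∀ k, ∀ i ∈ d (R k), ∀ H : Finset A, Disjoint (H : Set A) (T i) →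
      ∀ C : Finset (Fin n), (∀ j ∈ ⋃ k, d (R k), Disjoint (H : Set A) (T j) → c j ∈ C) →
        k + 1 ≤ C.card := by
    intro k
    induction k with
    | zero =>
      intro i hi H hH C hC
      exact Finset.card_pos.mpr ⟨c i, hC i (mem_iUnion.mpr ⟨0, hi⟩) hH⟩
    | succ k ih =>
      intro i hi H hH C hC
      have hi0 : i ∈ ⋃ k, d (R k) := mem_iUnion.mpr ⟨k + 1, hi⟩
      obtain ⟨H1, hH1, hH1'⟩ := hc i hi0
      have hiR : i ∈ R k \ d (R k) := hd1 _ hi
      obtain ⟨j, hj, hjd⟩ := hd3 (R k) i hiR.1 (H ∪ H1)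
        (by rw [Finset.coe_union]; exact disjoint_union_left.mpr ⟨hH, hH1⟩)
      have hji : i ≠ j := by rintro rfl; exact hiR.2 hj
      have h2 := ih j hj (insert (p i) (H ∪ H1))
        (by rw [Finset.coe_insert]
            exact disjoint_insert_left.mpr ⟨fun h => hji (hp' _ _ h), hjd⟩)
        (C.erase (c i)) (by
          intro l hl hld
          rw [Finset.coe_insert, Finset.coe_union, disjoint_insert_left,
            disjoint_union_left] at hld
          refine Finset.mem_erase.mpr ⟨fun h => ?_, hC l hl hld.2.1⟩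
          have := hH1' l hl hld.2.2 h
          subst this
          exact hld.1 (hp _))
      have h3 := Finset.card_erase_add_one (hC i hi0 hH)
      omega
  obtain ⟨i, hi⟩ : (R n).Nonempty := by
    by_contra h
    rw [not_nonempty_iff_eq_empty] at h
    exact hRu n (h ▸ countable_empty)
  obtain ⟨j, hj, hjd⟩ := hd3 (R n) i hi ∅ (by simp)
  have := key n j hj ∅ hjd Finset.univ (fun _ _ _ => Finset.mem_univ _)
  simp at this

/-- combinatorial discreteness -/
def Disc {X A : Type*} (T : X → Set A) (D : Set X) : Prop :=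
  ∀ d ∈ D, ∃ H : Finset A, Disjoint (H : Set A) (T d) ∧
    ∀ e ∈ D, Disjoint (H : Set A) (T e) → e = d

lemma tuples {X A ι : Type*} (T : X → Set A) (hT : ∀ i, (T i).Countable) (p : X → A)
    (hp : ∀ i, p i ∈ T i) (hp' : ∀ i k, p i ∈ T k → i = k) (n : ℕ)
    (g : ι → Fin (n + 1) → X) (hg : ∀ i k j, g i j = g k j → i = k) [Uncountable ι] :
    ∃ J0 : Set ι, J0.Countable ∧ ∀ D, Disc T D → ∃ i ∈ J0, ∀ j, g i j ∉ D := by
  classical
  obtain ⟨J0, -, hJ0, h⟩ := levels (fun i : ι => {q : Fin (n + 1) × A | q.2 ∈ T (g i q.1)})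
    (fun i => by
      refine (countable_iUnion fun j : Fin (n + 1) => (hT (g i j)).image (Prod.mk j)).mono ?_
      rintro ⟨j, a⟩ ha
      exact mem_iUnion.mpr ⟨j, a, ha, rfl⟩)
    (fun i => (0, p (g i 0))) (fun i => hp _) (fun i k h => hg i k 0 (hp' _ _ h))
    univ (not_countable_univ) (n + 1)
  refine ⟨J0, hJ0, fun D hD => ?_⟩
  by_contra hcon
  push Not at hcon
  choose! c hc using hcon
  refine h c fun i hi => ?_
  obtain ⟨H, hH, hH'⟩ := hD _ (hc i hi)
  refine ⟨H.image (Prod.mk (c i)), ?_, fun k hk hkd hck => ?_⟩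
  · rw [Set.disjoint_left]
    intro q hq hq'
    rw [Finset.coe_image] at hq
    obtain ⟨a, ha, rfl⟩ := hq
    exact Set.disjoint_left.mp hH ha hq'
  · refine hg k i (c i) (hH' _ (hck ▸ hc k hk) ?_)
    rw [Set.disjoint_left]
    intro a ha ha'
    have hm : (c i, a) ∈ ((H.image (Prod.mk (c i)) : Finset (Fin (n + 1) × A)) :
        Set (Fin (n + 1) × A)) := by
      rw [Finset.coe_image]
      exact ⟨a, ha, rfl⟩
    exact Set.disjoint_left.mp hkd hm ha'

lemma reduce {X A : Type*} (T : X → Set A) (hT : ∀ i, (T i).Countable) (p : X → A)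
    (hp : ∀ i, p i ∈ T i) (hp' : ∀ i k, p i ∈ T k → i = k) (n : ℕ) :
    ∀ 𝓕 : Set (Finset X), (∀ F ∈ 𝓕, F.card ≤ n) →
      ∃ 𝓕0 ⊆ 𝓕, 𝓕0.Countable ∧ ∀ D, Disc T D → (∃ F ∈ 𝓕, Disjoint (F : Set X) D) →
        ∃ F ∈ 𝓕0, Disjoint (F : Set X) D := by
  classical
  induction n with
  | zero =>
    intro 𝓕 h
    refine ⟨𝓕, subset_rfl, (countable_singleton ∅).mono fun F hF => ?_, fun D _ h => h⟩
    exact Finset.card_eq_zero.mp (Nat.le_zero.mp (h F hF))
  | succ n ih =>
    intro 𝓕 h
    by_cases h0 : (∅ : Finset X) ∈ 𝓕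
    · exact ⟨{∅}, singleton_subset_iff.mpr h0, countable_singleton _,
        fun D _ _ => ⟨∅, rfl, by simp⟩⟩
    obtain ⟨𝒢, h𝒢⟩ := zorn_subset {𝒢 : Set (Finset X) | 𝒢 ⊆ 𝓕 ∧ 𝒢.Pairwise Disjoint} (by
      intro c hc hchain
      exact ⟨⋃₀ c, ⟨sUnion_subset fun t ht => (hc ht).1,
        (pairwise_sUnion hchain.directedOn).mpr fun t ht => (hc ht).2⟩,
        fun t ht => subset_sUnion_of_mem ht⟩)
    have hne : ∀ F ∈ 𝓕, F.Nonempty := fun F hF =>
      Finset.nonempty_iff_ne_empty.mpr (by rintro rfl; exact h0 hF)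
    by_cases hc : 𝒢.Countable
    · have hmeet : ∀ F ∈ 𝓕, ∃ a ∈ F, a ∈ ⋃ G ∈ 𝒢, (G : Set X) := by
        intro F hF
        by_contra hcon
        push Not at hcon
        have hdis : ∀ G ∈ 𝒢, Disjoint F G := fun G hG => Finset.disjoint_left.mpr
          fun a ha haG => hcon a ha (mem_biUnion hG haG)
        have hins : insert F 𝒢 ⊆ 𝒢 := h𝒢.le_of_ge
          ⟨insert_subset hF h𝒢.prop.1, h𝒢.prop.2.insert fun G hG _ =>
            ⟨hdis G hG, (hdis G hG).symm⟩⟩ (subset_insert _ _)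
        obtain ⟨a, ha⟩ := hne F hF
        exact hcon a ha (mem_biUnion (hins (mem_insert _ _)) ha)
      have hC : (⋃ G ∈ 𝒢, (G : Set X)).Countable := hc.biUnion fun G _ => G.countable_toSet
      have := fun a : X => ih {F' | a ∉ F' ∧ insert a F' ∈ 𝓕} (by
        rintro F' ⟨h1, h2⟩
        have := h _ h2
        rw [Finset.card_insert_of_notMem h1] at this
        omega)
      choose 𝓗 h1 h2 h3 using this
      refine ⟨⋃ a ∈ ⋃ G ∈ 𝒢, (G : Set X), insert a '' 𝓗 a, ?_,
        hC.biUnion fun a _ => (h2 a).image _, ?_⟩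
      · refine iUnion₂_subset fun a _ => ?_
        rintro _ ⟨F', hF', rfl⟩
        exact (h1 a hF').2
      · rintro D hD ⟨F, hF, hFD⟩
        obtain ⟨a, ha, haC⟩ := hmeet F hF
        obtain ⟨F', hF', hF'D⟩ := h3 a D hD ⟨F.erase a,
          ⟨Finset.notMem_erase _ _, by rwa [Finset.insert_erase ha]⟩,
          hFD.mono_left (by exact_mod_cast Finset.erase_subset _ _)⟩
        refine ⟨insert a F', mem_biUnion haC ⟨F', hF', rfl⟩, ?_⟩
        rw [Finset.coe_insert]
        exact disjoint_insert_left.mpr ⟨Set.disjoint_left.mp hFD ha, hF'D⟩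
    · have hg : ∀ G : 𝒢, ∃ g : Fin (n + 1) → X, (∀ j, g j ∈ G.1) ∧ ∀ a ∈ G.1, ∃ j, g j = a := by
        rintro ⟨G, hG⟩
        have hGF := h𝒢.prop.1 hG
        have : Nonempty G := (hne G hGF).to_subtype
        obtain ⟨e⟩ : Nonempty (G ↪ Fin (n + 1)) :=
          Function.Embedding.nonempty_of_card_le (by simpa using h G hGF)
        refine ⟨fun j => (Function.invFun e j).1, fun j => (Function.invFun e j).2,
          fun a ha => ?_⟩
        obtain ⟨j, hj⟩ := Function.invFun_surjective e.injective ⟨a, ha⟩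
        exact ⟨j, by simp [hj]⟩
      choose g hg1 hg2 using hg
      have : Uncountable 𝒢 := by
        rw [← not_countable_iff, countable_coe_iff]; exact hc
      obtain ⟨J0, hJ0, hJ⟩ := tuples T hT p hp hp' n g (by
        intro G G' j hj
        by_contra hne'
        have hd := h𝒢.prop.2 G.2 G'.2 (fun h => hne' (Subtype.ext h))
        exact Finset.disjoint_left.mp hd (hg1 G j) (hj ▸ hg1 G' j))
      refine ⟨Subtype.val '' J0, ?_, hJ0.image _, fun D hD _ => ?_⟩
      · rintro _ ⟨G, -, rfl⟩; exact h𝒢.prop.1 G.2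
      · obtain ⟨G, hG, hG'⟩ := hJ D hD
        refine ⟨G.1, mem_image_of_mem _ hG, Set.disjoint_left.mpr fun a ha haD => ?_⟩
        obtain ⟨j, rfl⟩ := hg2 G a ha
        exact hG' j haD

end Pool.Agent.MP_7d36bd_gt.H41
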