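import Mathlib
import Pool.Agent.MP_7d36bd_gt.H41.Comb

/-!
The example: countably branching well-founded trees with a topology in which a countable set
is the kernel of the neighbourhood assignment exactly when it is not discrete.
-/

open Set

namespace Pool.Agent.MP_7d36bd_gt.H41

/-- countably branching well-founded trees -/
inductive Tr : Type
  | leaf : Tr
  | node : (ℕ → Tr) → Tr

/-- the set of children if it is discrete, else the empty set -/
def S : Tr → Set Tr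
  | .leaf => ∅
  | .node f => {x | x ∈ range f ∧ ∀ n, ∃ H : Finset (Tr ⊕ Tr),
      Disjoint (H : Set (Tr ⊕ Tr)) (insert (Sum.inr (f n)) (Sum.inl '' S (f n))) ∧
      ∀ m, Disjoint (H : Set (Tr ⊕ Tr)) (insert (Sum.inr (f m)) (Sum.inl '' S (f m))) →
        f m = f n}

/-- the countable set attached to a point -/
def T (x : Tr) : Set (Tr ⊕ Tr) := insert (Sum.inr x) (Sum.inl '' S x)

lemma S_countable (x : Tr) : (S x).Countable := by
  cases x with
  | leaf => exact countable_empty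
  | node f => exact (countable_range f).mono fun x hx => hx.1

lemma T_countable (x : Tr) : (T x).Countable := ((S_countable x).image _).insert _

lemma inr_mem_T (x : Tr) : Sum.inr x ∈ T x := mem_insert _ _

lemma eq_of_inr_mem_T (x y : Tr) (h : Sum.inr x ∈ T y) : x = y := by
  simpa [T] using h

lemma inl_mem_T {x y : Tr} : Sum.inl x ∈ T y ↔ x ∈ S y := by simp [T]

lemma node_ne (x : Tr) : ∀ f : ℕ → Tr, x = .node f → x ∉ range f := by
  induction x with
  | leaf => intro f h; cases h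
  | node g ih =>
    intro f h
    cases h
    rintro ⟨n, hn⟩
    exact ih n g hn ⟨n, rfl⟩

lemma not_mem_S (x : Tr) : x ∉ S x := by
  cases x with
  | leaf => exact notMem_empty _
  | node f => exact fun h => node_ne _ f rfl h.1

lemma disc_S (x : Tr) : Disc T (S x) := by
  cases x with
  | leaf => intro d hd; exact absurd hd (notMem_empty _)
  | node f =>
    rintro d ⟨⟨n, rfl⟩, h⟩
    obtain ⟨H, h1, h2⟩ := h n
    refine ⟨H, h1, ?_⟩
    rintro e ⟨⟨m, rfl⟩, -⟩ he
    exact h2 m he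

lemma S_node {f : ℕ → Tr} (h : Disc T (range f)) : range f ⊆ S (.node f) := by
  intro x hx
  refine ⟨hx, fun n => ?_⟩
  obtain ⟨H, h1, h2⟩ := h (f n) ⟨n, rfl⟩
  exact ⟨H, h1, fun m hm => h2 (f m) ⟨m, rfl⟩ hm⟩

/-- basic open sets -/
def W (H : Finset (Tr ⊕ Tr)) : Set Tr := {x | Disjoint (H : Set (Tr ⊕ Tr)) (T x)}

open Classical in
lemma W_union (H H' : Finset (Tr ⊕ Tr)) : W (H ∪ H') = W H ∩ W H' := by
  ext x; simp [W]

/-- the topology -/
@[reducible] def top : TopologicalSpace Tr where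
  IsOpen U := ∀ x ∈ U, ∃ H, x ∈ W H ∧ W H ⊆ U
  isOpen_univ := fun x _ => ⟨∅, by simp [W], subset_univ _⟩
  isOpen_inter := by
    classical
    intro U V hU hV x hx
    obtain ⟨H, h1, h2⟩ := hU x hx.1
    obtain ⟨H', h1', h2'⟩ := hV x hx.2
    exact ⟨H ∪ H', by rw [W_union]; exact ⟨h1, h1'⟩,
      by rw [W_union]; exact inter_subset_inter h2 h2'⟩
  isOpen_sUnion := by
    rintro s hs x ⟨U, hU, hx⟩
    obtain ⟨H, h1, h2⟩ := hs U hU x hx
    exact ⟨H, h1, h2.trans (subset_sUnion_of_mem hU)⟩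

attribute [local instance] top

lemma isOpen_W (H : Finset (Tr ⊕ Tr)) : IsOpen (W H) := fun _ hx => ⟨H, hx, subset_rfl⟩

lemma t1 : T1Space Tr := by
  refine ⟨fun x => ⟨?_⟩⟩
  have : ({x}ᶜ : Set Tr) = W {Sum.inr x} := by
    ext y
    simp only [W, mem_compl_iff, mem_singleton_iff, Finset.coe_singleton, mem_ofPred_eq,
      disjoint_singleton_left]
    exact ⟨fun h h' => h (eq_of_inr_mem_T _ _ h').symm, fun h h' => h (h' ▸ inr_mem_T _)⟩
  rw [this]
  exact isOpen_W _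

lemma hl : HereditarilyLindelofSpace Tr := by
  classical
  refine ⟨fun t _ => isLindelof_of_countable_subcover fun {ι} U hU ht => ?_⟩
  have h1 : ∀ y ∈ t, ∃ i, ∃ H, y ∈ W H ∧ W H ⊆ U i := by
    intro y hy
    obtain ⟨i, hi⟩ := mem_iUnion.mp (ht hy)
    exact ⟨i, hU i y hi⟩
  rcases t.eq_empty_or_nonempty with rfl | ⟨y0, hy0⟩
  · exact ⟨∅, countable_empty, empty_subset _⟩
  have : Nonempty ι := ⟨(h1 y0 hy0).choose⟩
  choose! i H hH1 hH2 using h1
  have h2 := fun n : ℕ => reduce T T_countable Sum.inr inr_mem_T eq_of_inr_mem_T n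
    {F | F.card ≤ n ∧ ∃ y ∈ t, (H y).toLeft = F} (fun F hF => hF.1)
  choose 𝓕 h3 h4 h5 using h2
  have h6 : ∀ F ∈ ⋃ n, 𝓕 n, ∃ y ∈ t, (H y).toLeft = F := by
    intro F hF
    obtain ⟨n, hn⟩ := mem_iUnion.mp hF
    exact (h3 n hn).2
  have : Nonempty Tr := ⟨.leaf⟩
  choose! y hy1 hy2 using h6
  have hc : (⋃ n, 𝓕 n).Countable := countable_iUnion h4
  refine ⟨i '' (y '' (⋃ n, 𝓕 n) ∪ ⋃ F ∈ ⋃ n, 𝓕 n, ((H (y F)).toRight : Set Tr)),
    ((hc.image _).union (hc.biUnion fun F _ => Finset.countable_toSet _)).image _,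
    fun z hz => ?_⟩
  obtain ⟨F, hF, hFz⟩ := h5 (H z).toLeft.card (S z) (disc_S z)
    ⟨(H z).toLeft, ⟨le_rfl, z, hz, rfl⟩, Set.disjoint_left.mpr fun a ha ha' =>
      Set.disjoint_left.mp (hH1 z hz) (Finset.mem_toLeft.mp ha) (inl_mem_T.mpr ha')⟩
  have hF' : F ∈ ⋃ n, 𝓕 n := mem_iUnion.mpr ⟨_, hF⟩
  by_cases hzr : z ∈ (H (y F)).toRight
  · exact mem_biUnion (mem_image_of_mem i (Or.inr (mem_biUnion hF' hzr))) (hH2 z hz (hH1 z hz))
  · refine mem_biUnion (mem_image_of_mem i (Or.inl (mem_image_of_mem y hF')))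
      (hH2 _ (hy1 F hF') (Set.disjoint_left.mpr ?_))
    rintro (a | a) ha ha'
    · refine Set.disjoint_left.mp hFz ?_ (inl_mem_T.mp ha')
      rw [← hy2 F hF']
      exact Finset.mem_toLeft.mpr ha
    · obtain rfl := eq_of_inr_mem_T _ _ ha'
      exact hzr (Finset.mem_toRight.mpr ha)

lemma not_dd : ¬ (∀ U : Tr → Set Tr, (∀ x, U x ∈ nhds x) →
    ∃ D : Set Tr, DiscreteTopology D ∧ (⋃ x ∈ D, U x) = Set.univ) := by
  intro h
  obtain ⟨D, hD, hcov⟩ := h (fun x => W {Sum.inl x}) (fun x => (isOpen_W _).mem_nhds (by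
    simp only [W, Finset.coe_singleton, mem_ofPred_eq, disjoint_singleton_left, inl_mem_T]
    exact not_mem_S x))
  have hc : D.Countable := (hl.1 D (subset_univ _)).countable hD
  have hne : D.Nonempty := by
    have : Tr.leaf ∈ ⋃ x ∈ D, W {Sum.inl x} := hcov ▸ mem_univ _
    obtain ⟨x, hx, -⟩ := mem_iUnion₂.mp this
    exact ⟨x, hx⟩
  obtain ⟨f, rfl⟩ := hc.exists_eq_range hne
  have hdisc : Disc T (range f) := by
    intro d hd
    have ho : IsOpen ({⟨d, hd⟩} : Set (range f)) := isOpen_discrete _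
    obtain ⟨V, hV, hV'⟩ := isOpen_induced_iff.mp ho
    have hdV : d ∈ V := by
      have : (⟨d, hd⟩ : range f) ∈ Subtype.val ⁻¹' V := by rw [hV']; rfl
      exact this
    obtain ⟨H, h1, h2⟩ := hV d hdV
    refine ⟨H, h1, fun e he heH => ?_⟩
    have : (⟨e, he⟩ : range f) ∈ Subtype.val ⁻¹' V := h2 heH
    rw [hV'] at this
    exact congrArg Subtype.val this
  have : Tr.node f ∈ ⋃ x ∈ range f, W {Sum.inl x} := hcov ▸ mem_univ _
  obtain ⟨x, hx, hx'⟩ := mem_iUnion₂.mp this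
  simp only [W, Finset.coe_singleton, mem_ofPred_eq, disjoint_singleton_left, inl_mem_T] at hx'
  exact hx' (S_node hdisc hx)

end Pool.Agent.MP_7d36bd_gt.H41
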